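import Mathlib
import Pool.Agent.LibOM74.Main

/-!
# Coanalytic factors: products with Lindelöf ordered spaces that are not normal
-/

open Set Topology TopologicalSpace MeasureTheory
open scoped Cardinal
open Pool.Agent.LibOM74

namespace Pool.Agent.Results.MP_c0b236_gt.CoanalyticFactors

/-- The product of the (coanalytic) space of the well-founded relations on `ℕ` with some Lindelöf
linearly ordered space is not normal. For an arbitrary coanalytic set `M` in a Polish space there is
a Lindelöf linearly ordered space `Y` with `M × Y` not normal if and only if `M` is not σ-compact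
and, moreover, `M` is not Borel or `𝔟 = ℵ₁`. -/
theorem result :
    (AnalyticSet {x : ℕ → Bool | WellFounded fun m n => x (Nat.pair m n) = true}ᶜ ∧
      ∃ (Y : Type) (_ : LinearOrder Y) (_ : TopologicalSpace Y) (_ : OrderTopology Y)
        (_ : LindelofSpace Y),
        ¬ NormalSpace ({x : ℕ → Bool | WellFounded fun m n => x (Nat.pair m n) = true} × Y)) ∧
    ∀ (X : Type) [TopologicalSpace X] [PolishSpace X] [MeasurableSpace X] [BorelSpace X]
      (M : Set X), AnalyticSet Mᶜ →
      ((∃ (Y : Type) (_ : LinearOrder Y) (_ : TopologicalSpace Y) (_ : OrderTopology Y)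
        (_ : LindelofSpace Y), ¬ NormalSpace (M × Y)) ↔
        ¬ IsSigmaCompact M ∧ (¬ MeasurableSet M ∨ bounding = ℵ₁)) := by
  refine ⟨⟨analytic_compl, ?_⟩, fun X _ _ _ _ M hM => ?_⟩
  · obtain ⟨Y, h1, h2, h3, h4, -, h5⟩ := exists_ordered WF wf_not_compacts
    exact ⟨Y, h1, h2, h3, h4, h5⟩
  · have h1 := main_coanalytic M hM
    let := metrizableSpaceMetric X
    have h2 := main_metrizable M
    have h4 : UncountableOnCompacts M ↔ _ := h2.out 0 3
    have h5 : ¬ UncountableOnCompacts M ↔
        ¬ IsSigmaCompact M ∧ (¬ MeasurableSet M ∨ bounding = ℵ₁) := by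
      rw [h1]
      tauto
    rw [← h5]
    constructor
    · rintro ⟨Y, _, _, _, _, hn⟩ h
      exact hn (h4.1 h Y)
    · intro h
      rw [h4] at h
      push Not at h
      obtain ⟨Y, h1, h2, h3, h4, hn⟩ := h
      exact ⟨Y, h1, h2, h3, h4, hn⟩

end Pool.Agent.Results.MP_c0b236_gt.CoanalyticFactors
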