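import Mathlib
import Pool.Agent.LibOM74.Main

/-!
# Michael's problem for ordered spaces and for hereditarily meta-Lindelöf spaces
-/

open Set Topology TopologicalSpace
open scoped Cardinal
open Pool.Agent.LibOM74

namespace Pool.Agent.Results.MP_c0b236_gt.OrderedSpaces

/-- `Y` is tame if it is a continuous image of a closed subspace of `Z × K`, `K` compact, `Z`
Lindelöf and a generalised ordered space or hereditarily meta-Lindelöf.

For every separable metrizable space `M` the following are equivalent: every uncountable subset of
`M` has an uncountable intersection with a compact subset of `M`; `M × Y` is Lindelöf for all tame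
`Y`; `M × Y` is normal for all regular tame `Y`; `M × Y` is normal for all Lindelöf linearly ordered
spaces `Y`; the same for the hereditarily meta-Lindelöf ones among them.

If `M` is Polish this is the case if and only if `M` is σ-compact or `𝔟 ≠ ℵ₁`: there is a Lindelöf
linearly ordered space (equivalently, a tame completely regular space) `Y` with `M × Y` not normal
if and only if `M` is not σ-compact and `𝔟 = ℵ₁`. -/
theorem result :
    (∀ (M : Type) [TopologicalSpace M] [MetrizableSpace M] [SeparableSpace M], List.TFAE [
      UncountableOnCompacts M,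
      ∀ (Y : Type) [TopologicalSpace Y], Tame Y → LindelofSpace (M × Y),
      ∀ (Y : Type) [TopologicalSpace Y] [RegularSpace Y], Tame Y → NormalSpace (M × Y),
      ∀ (Y : Type) [LinearOrder Y] [TopologicalSpace Y] [OrderTopology Y] [LindelofSpace Y],
        NormalSpace (M × Y),
      ∀ (Y : Type) [LinearOrder Y] [TopologicalSpace Y] [OrderTopology Y] [LindelofSpace Y],
        HereditarilyMetaLindelof Y → NormalSpace (M × Y)]) ∧
    ∀ (M : Type) [TopologicalSpace M] [PolishSpace M],
      ((∃ (Y : Type) (_ : LinearOrder Y) (_ : TopologicalSpace Y) (_ : OrderTopology Y)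
        (_ : LindelofSpace Y), ¬ NormalSpace (M × Y)) ↔ ¬ SigmaCompactSpace M ∧ bounding = ℵ₁) ∧
      ((∃ (Y : Type) (_ : TopologicalSpace Y) (_ : T35Space Y), Tame Y ∧ ¬ NormalSpace (M × Y)) ↔
        ¬ SigmaCompactSpace M ∧ bounding = ℵ₁) := by
  refine ⟨fun M _ _ _ => main_metrizable M, fun M _ _ => ?_⟩
  have h1 := main_polish M
  have h2 := main_metrizable M
  have h3 : UncountableOnCompacts M ↔ _ := h2.out 0 2
  have h4 : UncountableOnCompacts M ↔ _ := h2.out 0 3
  have h5 : ¬ UncountableOnCompacts M ↔ ¬ SigmaCompactSpace M ∧ bounding = ℵ₁ := by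
    rw [h1, not_or, not_not]
  constructor
  · rw [← h5]
    constructor
    · rintro ⟨Y, _, _, _, _, hn⟩ h
      exact hn (h4.1 h Y)
    · intro h
      rw [h4] at h
      push Not at h
      obtain ⟨Y, h1, h2, h3, h4, hn⟩ := h
      exact ⟨Y, h1, h2, h3, h4, hn⟩
  · rw [← h5]
    constructor
    · rintro ⟨Y, _, _, hY, hn⟩ h
      exact hn (h3.1 h Y hY)
    · intro h
      rw [h4] at h
      push Not at h
      obtain ⟨Y, _, _, _, _, hn⟩ := h
      exact ⟨Y, inferInstance, inferInstance, tame_of_lindelof Y
        (Or.inl ⟨inferInstance, isGO_of_orderTopology Y⟩), hn⟩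

end Pool.Agent.Results.MP_c0b236_gt.OrderedSpaces
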